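import Pool.Agent.X271.TqCls
import Pool.Agent.R388.TP.ProductMain

/-!
# Pull-backs and proper intersections of several varieties for which Q1 holds
-/

set_option autoImplicit false
set_option linter.unusedSectionVars false
set_option linter.unusedVariables false

namespace Pool.Agent.N734.QP

open MvPolynomial Pool.Agent.Y129.TA
open Pool.Agent.Y129.TB (IsConeOver InTube Approximable DimLEOver form_map eval_map_alg BaseField)
open Pool.Agent.X271.TQ (Good joinSet aeval_zero_form pw pw_form aeval_pw)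
open Pool.Agent.X271

/-- The points of projective space (of its cone) whose images under the tuples `f i` are in the
`X i`. -/
def pullSet {C K : Type} [Field C] [Field K] [Algebra K C] {k m : ℕ} {n : Fin k → ℕ}
    (X : ∀ i, Set (Fin (n i + 1) → C))
    (f : ∀ i, Fin (n i + 1) → MvPolynomial (Fin (m + 1)) K) : Set (Fin (m + 1) → C) :=
  {z | ∀ i, (fun j => aeval z (f i j)) ∈ X i}

variable {p : ℕ} [hp : Fact p.Prime] {C F K E : Type} [Field C] [Field F] [CharP F p] [Field K]
  [Field E] [Algebra K C] [Algebra E F] [IsAlgClosed C] [IsAlgClosed F]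

/-- joins of the inverse images under powers of several sets -/
theorem good_joins (T : Tilting p C F) (B : BaseField T K E) :
    ∀ (k : ℕ) (n δ e : Fin k → ℕ) (X : ∀ i, Set (Fin (n i + 1) → C))
      (_ : ∀ i, Good T.toTiltPair K E (X i) (δ i)) (_ : ∀ i, 0 < e i),
    ∃ (α : Type) (_ : Fintype α) (_ : Nonempty α) (b : α) (r : ∀ i, Fin (n i + 1) → α),
      (∀ a, a = b ∨ ∃ i j, a = r i j) ∧
      (∀ s : ∀ i, Fin (n i + 1) → C, ∃ w : α → C, w b = 0 ∧ ∀ i j, w (r i j) = s i j) ∧
      Good T.toTiltPair K E {w : α → C | ∀ i, (fun j => w (r i j) ^ e i) ∈ X i}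
        (∑ i, (δ i + 1)) := by
  intro k
  induction k with
  | zero =>
    intro n δ e X hX he
    refine ⟨Fin (0 + 1), inferInstance, inferInstance, 0, fun i => i.elim0,
      fun a => Or.inl (Fin.ext (by omega)), fun s => ⟨0, rfl, fun i => i.elim0⟩, ?_⟩
    have h1 : {w : Fin (0 + 1) → C | ∀ i : Fin 0, (fun j => w ((fun i => i.elim0 :
        ∀ i : Fin 0, Fin (n i + 1) → Fin (0 + 1)) i j) ^ e i) ∈ X i} = Set.univ :=
      Set.eq_univ_of_forall fun w i => i.elim0
    rw [h1]
    simpa using Good.univ T B 0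
  | succ k ih =>
    intro n δ e X hX he
    obtain ⟨α, _, _, b, r, h1, h2, h3⟩ := ih (fun i => n i.succ) (fun i => δ i.succ)
      (fun i => e i.succ) (fun i => X i.succ) (fun i => hX i.succ) (fun i => he i.succ)
    have hJ := Good.join T B h3 (Good.powPull T B (hX 0) (he 0))
    let r' : ∀ i : Fin (k + 1), Fin (n i + 1) → α ⊕ Fin (n 0 + 1) :=
      Fin.cases (motive := fun i => Fin (n i + 1) → α ⊕ Fin (n 0 + 1)) (fun j => Sum.inr j)
        (fun i j => Sum.inl (r i j))
    refine ⟨α ⊕ Fin (n 0 + 1), inferInstance, inferInstance, Sum.inl b, r', ?_, ?_, ?_⟩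
    · rintro (a | j)
      · rcases h1 a with rfl | ⟨i, j, rfl⟩
        · exact Or.inl rfl
        · exact Or.inr ⟨i.succ, j, rfl⟩
      · exact Or.inr ⟨0, j, rfl⟩
    · intro s
      obtain ⟨w, hw1, hw2⟩ := h2 fun i => s i.succ
      refine ⟨Sum.elim w (s 0), hw1, fun i => ?_⟩
      refine Fin.cases (motive := fun i => ∀ j, Sum.elim w (s 0) (r' i j) = s i j)
        (fun j => rfl) (fun i j => hw2 i j) i
    · have e1 : joinSet {w : α → C | ∀ i : Fin k, (fun j => w (r i j) ^ e i.succ) ∈ X i.succ}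
          (TQ.powPull (e 0) (X 0)) =
          {w : α ⊕ Fin (n 0 + 1) → C | ∀ i, (fun j => w (r' i j) ^ e i) ∈ X i} := by
        ext w
        constructor
        · rintro ⟨hw1, hw2⟩
          exact Fin.cases (motive := fun i => (fun j => w (r' i j) ^ e i) ∈ X i) hw2
            (fun i => hw1 i)
        · intro hw
          exact ⟨fun i => hw i.succ, hw 0⟩
      rw [e1] at hJ
      have e2 : ∑ i : Fin (k + 1), (δ i + 1) = ∑ i : Fin k, (δ i.succ + 1) + δ 0 + 1 := by
        rw [Fin.sum_univ_succ]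
        ring
      rw [e2]
      exact hJ

/-- **Pull-backs of several varieties.** -/
theorem good_pull (T : Tilting p C F) (B : BaseField T K E) {k m d : ℕ} {n δ e : Fin k → ℕ}
    {X : ∀ i, Set (Fin (n i + 1) → C)} (hX : ∀ i, Good T.toTiltPair K E (X i) (δ i))
    (f : ∀ i, Fin (n i + 1) → MvPolynomial (Fin (m + 1)) K) (he : ∀ i, 0 < e i)
    (hf : ∀ i j, (f i j).IsHomogeneous (e i)) (hd : d + ∑ i, n i ≤ m + ∑ i, δ i)
    (hle : DimLEOver K (pullSet X f) d) :
    Good T.toTiltPair K E (pullSet X f) d := by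
  classical
  obtain ⟨α, _, _, b, r, h1, h2, h3⟩ := good_joins T B k n δ e X hX he
  have hJ := Good.join T B h3 (Good.univ T B m)
  let g : Option ((i : Fin k) × Fin (n i + 1)) → MvPolynomial (α ⊕ Fin (m + 1)) K := fun o =>
    match o with
    | none => MvPolynomial.X (Sum.inl b)
    | some x => MvPolynomial.X (Sum.inl (r x.1 x.2)) ^ e x.1 - rename Sum.inr (f x.1 x.2)
  have hg : ∀ o, IsForm (g o) := by
    rintro (_ | x)
    · exact ⟨1, one_pos, isHomogeneous_X _ _⟩
    · exact ⟨e x.1, he _, (isHomogeneous_X_pow _ _).sub ((hf _ _).rename_isHomogeneous)⟩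
  have hgn : ∀ w : α ⊕ Fin (m + 1) → C, aeval w (g none) = w (Sum.inl b) := fun w => by
    simp only [g, aeval_X]
  have hge : ∀ (w : α ⊕ Fin (m + 1) → C) i j, aeval w (g (some ⟨i, j⟩)) = 0 ↔
      w (Sum.inl (r i j)) ^ e i = aeval (fun a => w (Sum.inr a)) (f i j) := by
    intro w i j
    simp only [g, map_sub, map_pow, aeval_X, aeval_rename, sub_eq_zero]
    exact Iff.rfl
  set J : Set (α ⊕ Fin (m + 1) → C) :=
    joinSet {w : α → C | ∀ i, (fun j => w (r i j) ^ e i) ∈ X i}
      (Set.univ : Set (Fin (m + 1) → C)) with hJd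
  have hfree : TQ.Free {w | w ∈ J ∧ ∀ o, aeval w (g o) = 0} := by
    rintro w ⟨hw, hwg⟩ hw0
    have h5 : (fun a => w (Sum.inr a)) = 0 := funext hw0
    funext t
    rcases t with a | i
    · rcases h1 a with rfl | ⟨i, j, rfl⟩
      · rw [← hgn w, hwg none]
        rfl
      · have h6 := (hge w i j).1 (hwg (some ⟨i, j⟩))
        rw [h5, aeval_zero_form ⟨e i, he i, hf i j⟩] at h6
        exact pow_eq_zero_iff (he i).ne' |>.1 h6
    · exact hw0 i
  have himg : TQ.powImage 1 {w | w ∈ J ∧ ∀ o, aeval w (g o) = 0} = pullSet X f := by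
    ext y
    constructor
    · rintro ⟨w, ⟨hw, hwg⟩, hy⟩ i
      have e2 : (fun i => w (Sum.inr i)) = y := funext fun i => by rw [hy i, pow_one]
      have h5 : (fun j => w (Sum.inl (r i j)) ^ e i) ∈ X i := hw.1 i
      have e1 : (fun j => w (Sum.inl (r i j)) ^ e i) = fun j => aeval y (f i j) :=
        funext fun j => by rw [(hge w i j).1 (hwg (some ⟨i, j⟩)), e2]
      rw [e1] at h5
      exact h5
    · intro hy
      choose s hs using fun (i : Fin k) (j : Fin (n i + 1)) =>
        IsAlgClosed.exists_pow_nat_eq (aeval y (f i j)) (he i)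
      obtain ⟨w, hw1, hw2⟩ := h2 s
      refine ⟨Sum.elim w y, ⟨⟨fun i => ?_, Set.mem_univ _⟩, ?_⟩, fun i => ?_⟩
      · change (fun j => w (r i j) ^ e i) ∈ X i
        have e1 : (fun j => w (r i j) ^ e i) = fun j => aeval y (f i j) :=
          funext fun j => by rw [hw2, hs]
        rw [e1]
        exact hy i
      · rintro (_ | ⟨i, j⟩)
        · rw [hgn]
          exact hw1
        · rw [hge, Sum.elim_inl, hw2, hs]
          rfl
      · rw [pow_one]
        rfl
  have hsle : DimLEOver K {w | w ∈ J ∧ ∀ o, aeval w (g o) = 0} d := by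
    obtain ⟨q, hq, hq0⟩ := hle
    refine ⟨fun j => pw 1 (q j), fun j => pw_form one_pos (hq j), fun w hw hwq => ?_⟩
    have h5 : (fun i => w (Sum.inr i) ^ 1) = 0 := by
      refine hq0 _ ?_ fun j => ?_
      · rw [← himg]
        exact ⟨w, hw, fun i => rfl⟩
      · rw [← aeval_pw]
        exact hwq j
    exact hfree w hw fun i => pow_eq_zero_iff one_ne_zero |>.1 (congrFun h5 i)
  have hcard : Fintype.card (Option ((i : Fin k) × Fin (n i + 1))) + d ≤
      ∑ i, (δ i + 1) + m + 1 := by
    rw [Fintype.card_option, Fintype.card_sigma]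
    simp only [Fintype.card_fin, Finset.sum_add_distrib, Finset.sum_const, Finset.card_univ,
      smul_eq_mul, mul_one]
    omega
  have hS := Good.section T B (d := d) hJ g hg hcard hsle
  have hP := Good.powImage T B hS one_pos hfree (by rw [himg]; exact hle)
  rwa [himg] at hP

/-- The image of the set `W` under the tuple `g`. -/
def formImage {C K : Type} [Field C] [Field K] [Algebra K C] {m q : ℕ}
    (W : Set (Fin (m + 1) → C)) (g : Fin (q + 1) → MvPolynomial (Fin (m + 1)) K) :
    Set (Fin (q + 1) → C) :=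
  {y | ∃ z ∈ W, ∀ l, y l = aeval z (g l)}

/-- the unconditional class and the varieties for which Q1 holds -/
theorem good_of (T : Tilting p C F) (B : BaseField T K E) {n d : ℕ} {X : Set (Fin (n + 1) → C)}
    (hX : R388.TP.IsToricUnion K X d ∨
      IsConeOver K X ∧ DimGE X d ∧ DimLEOver K X d ∧ Approximable T.toTiltPair K E X d) :
    Good T.toTiltPair K E X d := by
  rcases hX with ⟨N, c, m, e, Z, h, f, hN, hZ, hh, he, hf, h0, rfl, hX⟩ | ⟨h1, h2, h3, h4⟩
  · have h1 := R388.TP.main T B hN Z (fun i => Or.inl (hZ i)) h hh f he hf h0 hX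
    exact ⟨h1.1, h1.2.1, hX, h1.2.2⟩
  · exact ⟨h1, h2, h3, h4⟩

theorem dimLE_pull {m q d e : ℕ} {W : Set (Fin (m + 1) → C)}
    {g : Fin (q + 1) → MvPolynomial (Fin (m + 1)) K} (he : 0 < e)
    (hg : ∀ l, (g l).IsHomogeneous e) (h0 : ∀ z ∈ W, (∀ l, aeval z (g l) = 0) → z = 0)
    (h : DimLEOver K (formImage W g) d) : DimLEOver K W d := by
  obtain ⟨u, hu, hu0⟩ := h
  refine ⟨fun j => aeval g (u j), fun j => ?_, fun z hz hzu => ?_⟩
  · obtain ⟨D, hD, hDu⟩ := hu j
    refine ⟨e * D, Nat.mul_pos he hD, ?_⟩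
    have := hDu.aeval g hg
    exact this
  · refine h0 z hz fun l => ?_
    have h1 := hu0 (fun l => aeval z (g l)) ⟨z, hz, fun l => rfl⟩ fun j => by
      have h2 := hzu j
      rw [← h2]
      change aeval (fun l => aeval z (g l)) (u j) = aeval z (aeval g (u j))
      rw [← AlgHom.comp_apply, comp_aeval]
    exact congrFun h1 l

/-- **Images of pull-backs.** -/
theorem good_formImage (T : Tilting p C F) (B : BaseField T K E) {k m d q e' : ℕ}
    {n δ e : Fin k → ℕ}
    {X : ∀ i, Set (Fin (n i + 1) → C)} (hX : ∀ i, Good T.toTiltPair K E (X i) (δ i))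
    (f : ∀ i, Fin (n i + 1) → MvPolynomial (Fin (m + 1)) K) (he : ∀ i, 0 < e i)
    (hf : ∀ i j, (f i j).IsHomogeneous (e i)) (hd : d + ∑ i, n i ≤ m + ∑ i, δ i)
    (g : Fin (q + 1) → MvPolynomial (Fin (m + 1)) K) (he' : 0 < e')
    (hg : ∀ l, (g l).IsHomogeneous e')
    (h0 : ∀ z ∈ pullSet X f, (∀ l, aeval z (g l) = 0) → z = 0)
    (hle : DimLEOver K (formImage (pullSet X f) g) d) :
    Good T.toTiltPair K E (formImage (pullSet X f) g) d :=
  Good.image T B (good_pull T B hX f he hf hd (dimLE_pull he' hg h0 hle)) g he' hg h0 hle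

end Pool.Agent.N734.QP
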