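import Pool.Agent.X271.TrMain
import Pool.Agent.N734.QP.Pull

/-!
# Degeneracy loci in the varieties for which Q1 holds
-/

set_option autoImplicit false
set_option linter.unusedSectionVars false
set_option linter.unusedVariables false

namespace Pool.Agent.N734.QP

open MvPolynomial Pool.Agent.Y129.TA
open Pool.Agent.Y129.TB (IsConeOver InTube Approximable DimLEOver form_map eval_map_alg BaseField)
open Pool.Agent.X271.TQ (Good joinSet aeval_zero_form pw pw_form aeval_pw Free)
open Pool.Agent.X271 Pool.Agent.X271.TR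

variable {p : ℕ} [hp : Fact p.Prime] {C F K E : Type} [Field C] [Field F] [CharP F p] [Field K]
  [Field E] [Algebra K C] [Algebra E F] [IsAlgClosed C] [IsAlgClosed F] {a b n : ℕ}

/-- Degeneracy loci of the expected dimension in `V`. -/
theorem good_degen_in (T : Tilting p C F) (B : BaseField T K E) (hab : b + 1 ≤ a) (hb : 0 < b)
    (M : Fin a → Fin (b + 1) → MvPolynomial (Fin (n + 1)) K) {α : Fin a → ℕ}
    {β : Fin (b + 1) → ℕ} (hM : ∀ i j, β j < α i → (M i j).IsHomogeneous (α i - β j))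
    (hM0 : ∀ i j, α i ≤ β j → M i j = 0)
    (hband : ∀ (i : Fin a) (j : Fin (b + 1)), (j : ℕ) ≤ (i : ℕ) →
      (i : ℕ) + (b + 1) ≤ (j : ℕ) + a → β j < α i) {d δ : ℕ} {V : Set (Fin (n + 1) → C)}
    (hV : Good T.toTiltPair K E V δ)
    (hd : a + d ≤ δ + b) (hle : DimLEOver K (V ∩ Degen C M) d) :
    Good T.toTiltPair K E (V ∩ Degen C M) d := by
  classical
  obtain ⟨N, hN⟩ : ∃ N, a * (b + 1) = N + 1 :=
    ⟨a * (b + 1) - 1, by have : 0 < a * (b + 1) := Nat.mul_pos (by omega) (by omega); omega⟩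
  let σ : Fin a × Fin (b + 1) ≃ Fin (N + 1) := finProdFinEquiv.trans (finCongr hN)
  let O : Fin a × Fin (b + 1) → Prop := fun x => α x.1 ≤ β x.2
  let e' : Fin a × Fin (b + 1) → ℕ := fun x => max 1 (α x.1 - β x.2)
  have he' : ∀ x, 0 < e' x := fun x => lt_of_lt_of_le one_pos (le_max_left _ _)
  have hO : OffBand O := by
    rintro ⟨i, j⟩ h ⟨h1, h2⟩
    exact absurd (hband i j h1 h2) (not_lt.2 h)
  have hαβ : ∀ x, ¬ O x → e' x + β x.2 = α x.1 := by
    intro x hx
    have h1 : β x.2 < α x.1 := not_le.1 hx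
    have h2 : e' x = α x.1 - β x.2 := max_eq_right (by omega)
    omega
  have hMe : ∀ x : Fin a × Fin (b + 1), ¬ O x → (M x.1 x.2).IsHomogeneous (e' x) := by
    intro x hx
    have h1 : β x.2 < α x.1 := not_le.1 hx
    have h2 : e' x = α x.1 - β x.2 := max_eq_right (by omega)
    rw [h2]
    exact hM _ _ h1
  have hJ := Good.join T B (good_PD T B hab hb σ hO he' hαβ) hV
  let g : {x : Fin (N + 1) // ¬ O (σ.symm x)} → MvPolynomial (Fin (N + 1) ⊕ Fin (n + 1)) K :=
    fun x => MvPolynomial.X (Sum.inl x.1) ^ e' (σ.symm x.1) -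
      rename Sum.inr (M (σ.symm x.1).1 (σ.symm x.1).2)
  have hg : ∀ i, IsForm (g i) := fun x =>
    ⟨e' (σ.symm x.1), he' _, (isHomogeneous_X_pow _ _).sub
      ((hMe _ x.2).rename_isHomogeneous)⟩
  have hge : ∀ (w : Fin (N + 1) ⊕ Fin (n + 1) → C) x, aeval w (g x) = 0 ↔
      w (Sum.inl x.1) ^ e' (σ.symm x.1) =
        aeval (fun t => w (Sum.inr t)) (M (σ.symm x.1).1 (σ.symm x.1).2) := by
    intro w x
    simp only [g, map_sub, map_pow, aeval_X, aeval_rename, sub_eq_zero]
    exact Iff.rfl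
  set J : Set (Fin (N + 1) ⊕ Fin (n + 1) → C) :=
    joinSet (PD C σ O e' (sm b K)) V with hJd
  have hwx : ∀ w ∈ {w | w ∈ J ∧ ∀ i, aeval w (g i) = 0}, ∀ x : Fin (N + 1),
      w (Sum.inl x) ^ e' (σ.symm x) =
        aeval (fun t => w (Sum.inr t)) (M (σ.symm x).1 (σ.symm x).2) := by
    rintro w ⟨hw, hwg⟩ x
    by_cases hx : O (σ.symm x)
    · have h0 := hw.1.1 _ hx
      rw [Equiv.apply_symm_apply] at h0
      have h1 : w (Sum.inl x) = 0 := h0
      rw [h1, zero_pow (he' _).ne', hM0 _ _ hx, map_zero]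
    · exact (hge w ⟨x, hx⟩).1 (hwg ⟨x, hx⟩)
  have hfree : Free {w | w ∈ J ∧ ∀ i, aeval w (g i) = 0} := by
    intro w hw hw0
    funext t
    rcases t with x | i
    · have h1 := hwx w hw x
      have h2 : (fun t => w (Sum.inr t)) = 0 := funext hw0
      have h3 : aeval (0 : Fin (n + 1) → C) (M (σ.symm x).1 (σ.symm x).2) = 0 := by
        by_cases hx : O (σ.symm x)
        · rw [hM0 _ _ hx, map_zero]
        · exact aeval_zero_form ⟨_, he' _, hMe _ hx⟩
      rw [h2, h3] at h1
      exact pow_eq_zero_iff (he' _).ne' |>.1 h1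
    · exact hw0 i
  have himg : TQ.powImage 1 {w | w ∈ J ∧ ∀ i, aeval w (g i) = 0} = V ∩ Degen C M := by
    ext y
    constructor
    · rintro ⟨w, hw', hy⟩
      have e2 : (fun i => w (Sum.inr i)) = y := funext fun i => by rw [hy i, pow_one]
      have hyV : y ∈ V := by
        have := hw'.1.2
        rwa [e2] at this
      refine ⟨hyV, ?_⟩
      have h1 : (fun x => w (Sum.inl x) ^ e' (σ.symm x)) ∈ Dg C σ (sm b K) := hw'.1.1.2
      have e1 : (fun x => w (Sum.inl x) ^ e' (σ.symm x)) =
          fun x => aeval y (M (σ.symm x).1 (σ.symm x).2) := funext fun x => by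
        rw [hwx w hw' x, e2]
      rw [e1] at h1
      rcases h1 with h1 | ⟨v, hv, h1⟩
      · refine ⟨fun _ => 1, fun h => one_ne_zero (congrFun h 0), fun i => ?_⟩
        refine Finset.sum_eq_zero fun j _ => ?_
        have h3 := congrFun h1 (σ (i, j))
        simp only [Equiv.symm_apply_apply] at h3
        rw [h3]
        exact zero_mul _
      · refine ⟨v, hv, fun i => ?_⟩
        have h3 := h1 i
        rw [aeval_sm] at h3
        simp only [Equiv.symm_apply_apply] at h3
        exact h3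
    · rintro ⟨hyV, v, hv, h1⟩
      choose s hs using fun x => IsAlgClosed.exists_pow_nat_eq
        (aeval y (M (σ.symm x).1 (σ.symm x).2)) (he' (σ.symm x))
      refine ⟨Sum.elim s y, ⟨⟨⟨fun x hx => ?_, ?_⟩, hyV⟩, fun x => ?_⟩, fun i => ?_⟩
      · change s (σ x) = 0
        have h2 := hs (σ x)
        rw [Equiv.symm_apply_apply, hM0 _ _ hx, map_zero] at h2
        exact pow_eq_zero_iff (he' _).ne' |>.1 h2
      · change (fun x => s x ^ e' (σ.symm x)) ∈ Dg C σ (sm b K)
        have e3 : (fun x => s x ^ e' (σ.symm x)) =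
            fun x => aeval y (M (σ.symm x).1 (σ.symm x).2) := funext hs
        rw [e3]
        right
        refine ⟨v, hv, fun i => ?_⟩
        rw [aeval_sm]
        simp only [Equiv.symm_apply_apply]
        exact h1 i
      · rw [hge, Sum.elim_inl, hs]
        rfl
      · rw [pow_one]
        rfl
  have hsle : DimLEOver K {w | w ∈ J ∧ ∀ i, aeval w (g i) = 0} d := by
    obtain ⟨q, hq, hq0⟩ := hle
    refine ⟨fun j => pw 1 (q j), fun j => pw_form one_pos (hq j), fun w hw hwq => ?_⟩
    have h1 : (fun i => w (Sum.inr i) ^ 1) = 0 := by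
      refine hq0 _ ?_ fun j => ?_
      · rw [← himg]
        exact ⟨w, hw, fun i => rfl⟩
      · rw [← aeval_pw]
        exact hwq j
    exact hfree w hw fun i => pow_eq_zero_iff one_ne_zero |>.1 (congrFun h1 i)
  have hcard : Fintype.card {x : Fin (N + 1) // ¬ O (σ.symm x)} + no O = N + 1 := by
    have h1 : Fintype.card {x : Fin (N + 1) // O (σ.symm x)} = no O :=
      Fintype.card_congr (σ.symm.subtypeEquiv fun x => Iff.rfl)
    have h2 := Fintype.card_subtype_compl (fun x : Fin (N + 1) => O (σ.symm x))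
    have h3 : Fintype.card {x : Fin (N + 1) // O (σ.symm x)} ≤ Fintype.card (Fin (N + 1)) :=
      Fintype.card_subtype_le _
    rw [Fintype.card_fin] at h2 h3
    omega
  have hcount : Fintype.card {x : Fin (N + 1) // ¬ O (σ.symm x)} + d ≤
      (a + 1) * b - 1 - no O + δ + 1 := by
    have h5 : (a + 1) * b = a * b + b := by ring
    have h6 : a * (b + 1) = a * b + a := by ring
    have h7 := no_lt hab hb hO
    omega
  have hS := Good.section T B (d := d) hJ g hg hcount hsle
  have hP := Good.powImage T B hS one_pos hfree (by rw [himg]; exact hle)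
  rwa [himg] at hP

end Pool.Agent.N734.QP
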